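import Pool.Agent.Helper14.GS.StD

set_option autoImplicit false

namespace Pool.Agent.Helper24.GS

open Pool.Agent.Helper14.GS Pool.Agent.Helper10.EP Polynomial Finset

/-- majorant -/
def Maj (P M : ℝ[X]) : Prop := ∀ n, |P.coeff n| ≤ M.coeff n

theorem Maj.mul {P M Q N : ℝ[X]} (h1 : Maj P M) (h2 : Maj Q N) : Maj (P * Q) (M * N) := by
  intro n
  rw [coeff_mul, coeff_mul]
  refine (Finset.abs_sum_le_sum_abs _ _).trans (Finset.sum_le_sum fun p _ => ?_)
  rw [abs_mul]
  exact mul_le_mul (h1 _) (h2 _) (abs_nonneg _) ((abs_nonneg _).trans (h1 _))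

theorem Maj.one : Maj 1 1 := by
  intro n
  rw [coeff_one]
  split_ifs <;> simp

theorem Maj.pow {P M : ℝ[X]} (h : Maj P M) (k : ℕ) : Maj (P ^ k) (M ^ k) := by
  induction k with
  | zero => simpa using Maj.one
  | succ k ih => rw [pow_succ, pow_succ]; exact ih.mul h

theorem Maj.prod {f g : ℕ → ℝ[X]} (h : ∀ i, Maj (f i) (g i)) (j : ℕ) :
    Maj (∏ i ∈ Finset.range j, f i) (∏ i ∈ Finset.range j, g i) := by
  induction j with
  | zero => simpa using Maj.one
  | succ j ih => rw [Finset.prod_range_succ, Finset.prod_range_succ]; exact ih.mul (h j)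

theorem Maj.hasse {P M : ℝ[X]} (h : Maj P M) (t : ℕ) : Maj (hasseDeriv t P) (hasseDeriv t M) := by
  intro n
  rw [hasseDeriv_coeff, hasseDeriv_coeff, abs_mul, abs_of_nonneg (Nat.cast_nonneg _)]
  exact mul_le_mul_of_nonneg_left (h _) (Nat.cast_nonneg _)

theorem Maj.aeval {P M : ℝ[X]} (h : Maj P M) {z : ℂ} {R : ℝ} (hz : ‖z‖ ≤ R) :
    ‖Polynomial.aeval z P‖ ≤ M.eval R := by
  have hP : P.natDegree < P.natDegree + M.natDegree + 1 := by omega
  have hM : M.natDegree < P.natDegree + M.natDegree + 1 := by omega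
  rw [Polynomial.aeval_eq_sum_range' hP, Polynomial.eval_eq_sum_range' hM]
  refine (norm_sum_le _ _).trans (Finset.sum_le_sum fun n _ => ?_)
  rw [norm_smul, norm_pow, Real.norm_eq_abs]
  exact mul_le_mul (h n) (pow_le_pow_left₀ (norm_nonneg _) hz n) (by positivity)
    ((abs_nonneg _).trans (h n))

theorem eval_nonneg {M : ℝ[X]} (h : ∀ n, 0 ≤ M.coeff n) {R : ℝ} (hR : 0 ≤ R) : 0 ≤ M.eval R := by
  rw [Polynomial.eval_eq_sum_range]
  exact Finset.sum_nonneg fun n _ => mul_nonneg (h n) (pow_nonneg hR n)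

theorem hasse_eval_le {M : ℝ[X]} (h : ∀ n, 0 ≤ M.coeff n) (t : ℕ) {R : ℝ} (hR : 0 ≤ R) :
    (hasseDeriv t M).eval R ≤ M.eval (R + 1) := by
  have h1 : ∀ n, 0 ≤ (taylor R M).coeff n := by
    intro n
    rw [taylor_coeff]
    apply eval_nonneg _ hR
    intro m
    rw [hasseDeriv_coeff]
    exact mul_nonneg (Nat.cast_nonneg _) (h _)
  have h2 : M.eval (R + 1) = (taylor R M).eval 1 := by
    rw [taylor_eval, add_comm]
  rw [h2, ← taylor_coeff]
  have h3 : t < (taylor R M).natDegree + t + 1 := by omega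
  rw [Polynomial.eval_eq_sum_range' (n := (taylor R M).natDegree + t + 1) (by omega)]
  calc (taylor R M).coeff t = (taylor R M).coeff t * 1 ^ t := by simp
    _ ≤ _ := Finset.single_le_sum (f := fun n => (taylor R M).coeff n * 1 ^ n)
      (fun n _ => by simpa using h1 n) (Finset.mem_range.2 h3)

/-- the majorant of the binomial polynomial -/
noncomputable def Mj (j : ℕ) : ℝ[X] :=
  ∏ i ∈ Finset.range j, (C (((i : ℝ) + 1)⁻¹) * (X + C (i : ℝ)))

theorem maj_bin (j : ℕ) : Maj (binP j) (Mj j) := by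
  unfold binP Mj
  apply Maj.prod
  intro i
  apply Maj.mul
  · intro n
    rw [coeff_C]
    split_ifs
    · rw [abs_of_nonneg (by positivity)]
    · simp
  · intro n
    rw [coeff_sub, coeff_add, coeff_C, coeff_X]
    by_cases h1 : 1 = n
    · subst h1
      simp
    · by_cases h0 : n = 0
      · subst h0
        simp
      · simp [h1, h0]

theorem Mj_eval (R j : ℕ) : (Mj j).eval ((R : ℝ) + 1) = ((R + j).choose j : ℕ) := by
  induction j with
  | zero => simp [Mj]
  | succ j ih =>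
    have h1 : Mj (j + 1) = Mj j * (C (((j : ℝ) + 1)⁻¹) * (X + C (j : ℝ))) := by
      unfold Mj
      rw [Finset.prod_range_succ]
    have h2 := Nat.add_one_mul_choose_eq (R + j) j
    have h3 : ((R : ℝ) + j + 1) * ((R + j).choose j : ℕ) =
        ((R + (j + 1)).choose (j + 1) : ℕ) * ((j : ℝ) + 1) := by
      exact_mod_cast h2
    rw [h1, eval_mul, ih, eval_mul, eval_C, eval_add, eval_X, eval_C]
    have h4 : ((j : ℝ) + 1) ≠ 0 := by positivity
    field_simp
    linarith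

theorem Mj_le (R j h : ℕ) (hj : j ≤ h) : (Mj j).eval ((R : ℝ) + 1) ≤ 2 ^ (R + 1 + h) := by
  rw [Mj_eval]
  have h1 : (R + j).choose j ≤ 2 ^ (R + j) := Nat.choose_le_two_pow _ _
  have h2 : 2 ^ (R + j) ≤ 2 ^ (R + 1 + h) := Nat.pow_le_pow_right (by norm_num) (by omega)
  exact_mod_cast h1.trans h2

theorem D2 : StD2 := by
  intro h r t R z hh hz
  have hmaj : Maj (felP h r) (Mj h ^ (r / h) * Mj (r % h)) :=
    ((maj_bin h).pow _).mul (maj_bin _)
  have hnn : ∀ n, 0 ≤ (Mj h ^ (r / h) * Mj (r % h)).coeff n := fun n =>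
    (abs_nonneg _).trans (hmaj n)
  have hMnn : ∀ j n, 0 ≤ (Mj j).coeff n := fun j n => (abs_nonneg _).trans (maj_bin j n)
  calc ‖aeval z (hasseDeriv t (felP h r))‖ ≤
      (hasseDeriv t (Mj h ^ (r / h) * Mj (r % h))).eval (R : ℝ) := (hmaj.hasse t).aeval hz
    _ ≤ (Mj h ^ (r / h) * Mj (r % h)).eval ((R : ℝ) + 1) :=
      hasse_eval_le hnn t (Nat.cast_nonneg R)
    _ = ((Mj h).eval ((R : ℝ) + 1)) ^ (r / h) * (Mj (r % h)).eval ((R : ℝ) + 1) := by
      rw [eval_mul, eval_pow]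
    _ ≤ (2 ^ (R + 1 + h)) ^ (r / h) * 2 ^ (R + 1 + h) := by
      apply mul_le_mul
      · exact pow_le_pow_left₀ (eval_nonneg (hMnn h) (by positivity)) (Mj_le R h h le_rfl) _
      · exact Mj_le R (r % h) h (Nat.mod_lt _ hh).le
      · exact eval_nonneg (hMnn _) (by positivity)
      · positivity
    _ = (2 : ℝ) ^ ((R + 1 + h) * (r / h + 1)) := by
      rw [← pow_mul, ← pow_add]
      congr 1

end Pool.Agent.Helper24.GS
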